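import Pool.Agent.Lib.MP_60829e_nt.FL.Gp
import Pool.Agent.Lib.MP_60829e_nt.FL.Zero
import Pool.Agent.Lib.MP_60829e_nt.FC.HpT

/-! # The column lemma for values in `Lt` -/

open MvPolynomial Module

namespace MP60829e.FL

open MP60829e.ST (Qa Lsp Lt)
open MP60829e.FC (Xr Gen)

private theorem smul_eq'' (c : Qa) (z : ℂ) : c • z = (c : ℂ) * z := rfl

private theorem one_mem_Lt : (1 : ℂ) ∈ Lt := by
  unfold ST.Lt
  exact Submodule.subset_span (Or.inl rfl)

theorem Qa_mem_Lt (c : Qa) : (c : ℂ) ∈ Lt := by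
  have h := Lt.smul_mem c one_mem_Lt
  rwa [smul_eq'', mul_one] at h

/-- The derivative in the direction of the last column. -/
theorem sum_lin {N n : ℕ} (z : Fin N → ℂ) (w : Fin n → ℂ) (d : Fin n → Qa)
    (P : MvPolynomial (Fin N ⊕ Fin n) ℂ) (q : ℕ) :
    ∑ i, d i • (lin z w (fun i => (d i : ℂ)) (pderiv (Sum.inr i) P)).coeff q =
      (lin z w (fun i => (d i : ℂ)) P).coeff (q + 1) * ((q : ℂ) + 1) := by
  rw [← Polynomial.coeff_derivative, derivative_lin, Polynomial.finsetSum_coeff]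
  refine Finset.sum_congr rfl fun i _ => ?_
  rw [Polynomial.coeff_C_mul, smul_eq'']

/-- `F_q ∈ Lt` implies `F_(q+1)` algebraic, for chosen points. -/
theorem stepA_aux {m n N r : ℕ} (hm : N + (n + 2) ^ 2 ≤ m) (lam : Fin (r + 1) → ℂ)
    (hlam : LinearIndependent Qa lam) (hlog : ∀ j, lam j ∈ Lsp) (x : ℕ → Fin m → ℚ)
    (U : Ultrafilter (Fin m → ℚ)) (hU : Gen U) (P : MvPolynomial (Fin N ⊕ Fin n) ℂ) (q : ℕ)
    (z : (Fin m → ℚ) → Fin N → Qa) (M : (Fin m → ℚ) → Fin n × Fin (r + 1) → Qa)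
    (h1 : ∀ᶠ a in (U : Filter (Fin m → ℚ)), ∀ i s,
      ∑ j : Fin (r + 1), M a (i, j) * ((Function.update x r a j s : ℚ) : Qa) = 0)
    (h2 : ∀ᶠ a in (U : Filter (Fin m → ℚ)), (lin (fun l => (z a l : ℂ)) (TV.pt lam (M a))
      (fun i => (M a (i, Fin.last r) : ℂ)) P).coeff q ∈ Lt) :
    ∀ᶠ a in (U : Filter (Fin m → ℚ)), ∃ γ : Qa, (lin (fun l => (z a l : ℂ)) (TV.pt lam (M a))
      (fun i => (M a (i, Fin.last r) : ℂ)) P).coeff (q + 1) = (γ : ℂ) := by
  classical
  filter_upwards [gline U hU Lt lam P q x M z h1 h2] with a ha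
  by_contra hcon
  obtain ⟨g, hg⟩ : ∃ g : Fin n → ℂ, g = fun i => (lin (fun l => (z a l : ℂ)) (TV.pt lam (M a))
      (fun i => (M a (i, Fin.last r) : ℂ)) (pderiv (Sum.inr i) P)).coeff q := ⟨_, rfl⟩
  obtain ⟨c, hc⟩ : ∃ c : Fin n → Qa, c = fun i => M a (i, Fin.last r) := ⟨_, rfl⟩
  have hsum : ∑ i, c i • g i = (lin (fun l => (z a l : ℂ)) (TV.pt lam (M a))
      (fun i => (M a (i, Fin.last r) : ℂ)) P).coeff (q + 1) * ((q : ℂ) + 1) := by
    rw [hg, hc]
    exact sum_lin (fun l => (z a l : ℂ)) (TV.pt lam (M a)) (fun i => M a (i, Fin.last r)) P q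
  let R : Submodule Qa (Fin n → Qa) :=
    { carrier := {v | ∃ γ : Qa, ∑ i, v i • g i = (γ : ℂ)}
      zero_mem' := ⟨0, by simp⟩
      add_mem' := by
        rintro v w ⟨γ, h⟩ ⟨δ, h'⟩
        refine ⟨γ + δ, ?_⟩
        simp only [Pi.add_apply, add_smul, Finset.sum_add_distrib, h, h']
        push_cast
        rfl
      smul_mem' := by
        rintro t v ⟨γ, h⟩
        refine ⟨t * γ, ?_⟩
        simp only [Pi.smul_apply, smul_eq_mul, mul_smul, ← Finset.smul_sum, h]
        rw [smul_eq'']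
        push_cast
        rfl }
  have hcR : c ∉ R := by
    rintro ⟨γ, hγ⟩
    apply hcon
    refine ⟨γ * ((q : Qa) + 1)⁻¹, ?_⟩
    rw [hsum] at hγ
    have hq : ((q : ℂ) + 1) ≠ 0 := Nat.cast_add_one_ne_zero q
    push_cast
    rw [← hγ, mul_assoc, mul_inv_cancel₀ hq, mul_one]
  obtain ⟨u, hu, huc⟩ := FC.exists_sep R c hcR
  obtain ⟨hfin, hle⟩ := FC.finrank_Tsp g u fun v hv => hu v hv
  obtain ⟨pq, hpq⟩ : ∃ pq : Fin N ⊕ Fin n → ℂ, pq = Sum.elim
      (fun l => (lin (fun l => (z a l : ℂ)) (TV.pt lam (M a))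
        (fun i => (M a (i, Fin.last r) : ℂ)) (pderiv (Sum.inl l) P)).coeff q)
      (fun i => (Polynomial.X * lin (fun l => (z a l : ℂ)) (TV.pt lam (M a))
          (fun i => (M a (i, Fin.last r) : ℂ)) (pderiv (Sum.inr i) P)).coeff q) := ⟨_, rfl⟩
  have hVfin : FiniteDimensional Qa (Submodule.span Qa (Set.range pq)) :=
    FiniteDimensional.span_of_finite Qa (Set.finite_range pq)
  have hV : finrank Qa (Submodule.span Qa (Set.range pq)) ≤ N + n := by
    have := finrank_range_le_card (R := Qa) pq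
    rw [Fintype.card_sum, Fintype.card_fin, Fintype.card_fin] at this
    exact this
  have h3 := FC.count_le lam hlam hlog (fun j => Function.update x r a j) g u c huc
    (Submodule.span Qa (Set.range pq)) hV hfin hle (fun ψ => by
      obtain ⟨T, ζ, hT, hd⟩ := ha ψ
      refine ⟨T, ∑ l, ζ l • (lin (fun l => (z a l : ℂ)) (TV.pt lam (M a))
          (fun i => (M a (i, Fin.last r) : ℂ)) (pderiv (Sum.inl l) P)).coeff q +
        ∑ i, T (i, Fin.last r) • (Polynomial.X * lin (fun l => (z a l : ℂ)) (TV.pt lam (M a))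
          (fun i => (M a (i, Fin.last r) : ℂ)) (pderiv (Sum.inr i) P)).coeff q,
        ?_, fun i s => ?_, ?_⟩
      rotate_left
      · rw [hc]
        exact hT i s
      · rw [hg]
        exact hd
      · refine Submodule.add_mem _ (Submodule.sum_mem _ fun l _ => Submodule.smul_mem _ _ ?_)
          (Submodule.sum_mem _ fun i _ => Submodule.smul_mem _ _ ?_)
        · refine Submodule.subset_span ⟨Sum.inl l, ?_⟩
          rw [hpq]
          rfl
        · refine Submodule.subset_span ⟨Sum.inr i, ?_⟩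
          rw [hpq]
          rfl)
  have h4 : (N + n) + ((n + 1) * (n + 2) + 1) < N + (n + 2) ^ 2 := by
    have : (n + 2) ^ 2 = n + ((n + 1) * (n + 2) + 1) + 1 := by ring
    omega
  omega

/-- `F_q` algebraic implies `F_(q+1) = 0`, for chosen points. -/
theorem stepB_aux {m n N r : ℕ} (hm : N + (n + 2) ^ 2 ≤ m) (lam : Fin (r + 1) → ℂ)
    (hlam : LinearIndependent Qa lam) (hlog : ∀ j, lam j ∈ Lsp) (x : ℕ → Fin m → ℚ)
    (U : Ultrafilter (Fin m → ℚ)) (hU : Gen U) (P : MvPolynomial (Fin N ⊕ Fin n) ℂ) (q : ℕ)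
    (z : (Fin m → ℚ) → Fin N → Qa) (M : (Fin m → ℚ) → Fin n × Fin (r + 1) → Qa)
    (h1 : ∀ᶠ a in (U : Filter (Fin m → ℚ)), ∀ i s,
      ∑ j : Fin (r + 1), M a (i, j) * ((Function.update x r a j s : ℚ) : Qa) = 0)
    (h2 : ∀ᶠ a in (U : Filter (Fin m → ℚ)), (lin (fun l => (z a l : ℂ)) (TV.pt lam (M a))
      (fun i => (M a (i, Fin.last r) : ℂ)) P).coeff q ∈ Submodule.span Qa {(1 : ℂ)}) :
    ∀ᶠ a in (U : Filter (Fin m → ℚ)), (lin (fun l => (z a l : ℂ)) (TV.pt lam (M a))
      (fun i => (M a (i, Fin.last r) : ℂ)) P).coeff (q + 1) = 0 := by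
  classical
  filter_upwards [gline U hU (Submodule.span Qa {(1 : ℂ)}) lam P q x M z h1 h2] with a ha
  by_contra hcon
  obtain ⟨g, hg⟩ : ∃ g : Fin n → ℂ, g = fun i => (lin (fun l => (z a l : ℂ)) (TV.pt lam (M a))
      (fun i => (M a (i, Fin.last r) : ℂ)) (pderiv (Sum.inr i) P)).coeff q := ⟨_, rfl⟩
  obtain ⟨c, hc⟩ : ∃ c : Fin n → Qa, c = fun i => M a (i, Fin.last r) := ⟨_, rfl⟩
  have hsum : ∑ i, c i • g i = (lin (fun l => (z a l : ℂ)) (TV.pt lam (M a))
      (fun i => (M a (i, Fin.last r) : ℂ)) P).coeff (q + 1) * ((q : ℂ) + 1) := by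
    rw [hg, hc]
    exact sum_lin (fun l => (z a l : ℂ)) (TV.pt lam (M a)) (fun i => M a (i, Fin.last r)) P q
  let R : Submodule Qa (Fin n → Qa) :=
    { carrier := {v | ∑ i, v i • g i = 0}
      zero_mem' := by simp
      add_mem' := by
        intro v w h h'
        have h : ∑ i, v i • g i = 0 := h
        have h' : ∑ i, w i • g i = 0 := h'
        change ∑ i, (v + w) i • g i = 0
        simp only [Pi.add_apply, add_smul, Finset.sum_add_distrib, h, h', add_zero]
      smul_mem' := by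
        intro t v h
        have h : ∑ i, v i • g i = 0 := h
        change ∑ i, (t • v) i • g i = 0
        simp only [Pi.smul_apply, smul_eq_mul, mul_smul, ← Finset.smul_sum, h, smul_zero] }
  have hcR : c ∉ R := by
    intro hγ
    have hγ : ∑ i, c i • g i = 0 := hγ
    apply hcon
    rw [hsum] at hγ
    have hq : ((q : ℂ) + 1) ≠ 0 := Nat.cast_add_one_ne_zero q
    exact (mul_eq_zero.1 hγ).resolve_right hq
  obtain ⟨u, hu, huc⟩ := FC.exists_sep R c hcR
  obtain ⟨hfin, hle⟩ := finrank_Tz g u fun v hv => hu v hv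
  obtain ⟨pq, hpq⟩ : ∃ pq : Option (Fin N ⊕ Fin n) → ℂ, pq = fun o => o.elim 1 (Sum.elim
      (fun l => (lin (fun l => (z a l : ℂ)) (TV.pt lam (M a))
        (fun i => (M a (i, Fin.last r) : ℂ)) (pderiv (Sum.inl l) P)).coeff q)
      (fun i => (Polynomial.X * lin (fun l => (z a l : ℂ)) (TV.pt lam (M a))
          (fun i => (M a (i, Fin.last r) : ℂ)) (pderiv (Sum.inr i) P)).coeff q)) := ⟨_, rfl⟩
  have hVfin : FiniteDimensional Qa (Submodule.span Qa (Set.range pq)) :=
    FiniteDimensional.span_of_finite Qa (Set.finite_range pq)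
  have hV : finrank Qa (Submodule.span Qa (Set.range pq)) ≤ N + n + 1 := by
    have := finrank_range_le_card (R := Qa) pq
    rw [Fintype.card_option, Fintype.card_sum, Fintype.card_fin, Fintype.card_fin] at this
    exact this
  have h3 := count0 lam hlam hlog (fun j => Function.update x r a j) g u c huc
    (Submodule.span Qa (Set.range pq)) hV hfin hle (fun ψ => by
      obtain ⟨T, ζ, hT, hd⟩ := ha ψ
      obtain ⟨β, hβ⟩ := Submodule.mem_span_singleton.1 hd
      refine ⟨T, (∑ l, ζ l • (lin (fun l => (z a l : ℂ)) (TV.pt lam (M a))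
          (fun i => (M a (i, Fin.last r) : ℂ)) (pderiv (Sum.inl l) P)).coeff q +
        ∑ i, T (i, Fin.last r) • (Polynomial.X * lin (fun l => (z a l : ℂ)) (TV.pt lam (M a))
          (fun i => (M a (i, Fin.last r) : ℂ)) (pderiv (Sum.inr i) P)).coeff q) - β • (1 : ℂ),
        ?_, fun i s => ?_, ?_⟩
      rotate_left
      · rw [hc]
        exact hT i s
      · rw [hg, hβ]
        ring
      · refine Submodule.sub_mem _ (Submodule.add_mem _
          (Submodule.sum_mem _ fun l _ => Submodule.smul_mem _ _ ?_)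
          (Submodule.sum_mem _ fun i _ => Submodule.smul_mem _ _ ?_)) (Submodule.smul_mem _ _ ?_)
        · refine Submodule.subset_span ⟨some (Sum.inl l), ?_⟩
          rw [hpq]
          rfl
        · refine Submodule.subset_span ⟨some (Sum.inr i), ?_⟩
          rw [hpq]
          rfl
        · refine Submodule.subset_span ⟨none, ?_⟩
          rw [hpq]
          rfl)
  have h4 : (N + n + 1) + (n * (n + 1)) < N + (n + 2) ^ 2 := by
    have : (n + 2) ^ 2 = n + n * (n + 1) + (2 * n + 4) := by ring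
    omega
  omega

/-- From chosen points to all points. -/
theorem all_of_choice {I Y : Type} [Nonempty Y] (U : Ultrafilter I) (A B : I → Y → Prop)
    (h : ∀ y : I → Y, (∀ᶠ a in (U : Filter I), A a (y a)) → ∀ᶠ a in (U : Filter I), B a (y a)) :
    ∀ᶠ a in (U : Filter I), ∀ y : Y, A a y → B a y := by
  classical
  by_contra hcon
  rw [← Ultrafilter.eventually_not] at hcon
  have h1 : ∀ a, ∃ y : Y, (¬ ∀ y : Y, A a y → B a y) → A a y ∧ ¬ B a y := by
    intro a
    by_cases h2 : ∀ y : Y, A a y → B a y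
    · exact ⟨Classical.arbitrary Y, fun h3 => absurd h2 h3⟩
    · have h3 := h2
      push Not at h3
      obtain ⟨y, hy⟩ := h3
      exact ⟨y, fun _ => hy⟩
  choose y hy using h1
  have h2 := h y (hcon.mono fun a ha => (hy a ha).1)
  obtain ⟨a, ha, hb⟩ := (hcon.and h2).exists
  exact (hy a ha).2 hb

theorem stepA {m n N r : ℕ} (hm : N + (n + 2) ^ 2 ≤ m) (lam : Fin (r + 1) → ℂ)
    (hlam : LinearIndependent Qa lam) (hlog : ∀ j, lam j ∈ Lsp) (x : ℕ → Fin m → ℚ)
    (U : Ultrafilter (Fin m → ℚ)) (hU : Gen U) (P : MvPolynomial (Fin N ⊕ Fin n) ℂ) (q : ℕ) :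
    ∀ᶠ a in (U : Filter (Fin m → ℚ)), ∀ y : (Fin N → Qa) × (Fin n × Fin (r + 1) → Qa),
      ((∀ i s, ∑ j : Fin (r + 1), y.2 (i, j) * ((Function.update x r a j s : ℚ) : Qa) = 0) ∧
      (lin (fun l => (y.1 l : ℂ)) (TV.pt lam y.2)
        (fun i => (y.2 (i, Fin.last r) : ℂ)) P).coeff q ∈ Lt) →
      ∃ γ : Qa, (lin (fun l => (y.1 l : ℂ)) (TV.pt lam y.2)
        (fun i => (y.2 (i, Fin.last r) : ℂ)) P).coeff (q + 1) = (γ : ℂ) :=
  all_of_choice U _ _ fun y hy => stepA_aux hm lam hlam hlog x U hU P q (fun a => (y a).1)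
    (fun a => (y a).2) (hy.mono fun a ha => ha.1) (hy.mono fun a ha => ha.2)

theorem stepB {m n N r : ℕ} (hm : N + (n + 2) ^ 2 ≤ m) (lam : Fin (r + 1) → ℂ)
    (hlam : LinearIndependent Qa lam) (hlog : ∀ j, lam j ∈ Lsp) (x : ℕ → Fin m → ℚ)
    (U : Ultrafilter (Fin m → ℚ)) (hU : Gen U) (P : MvPolynomial (Fin N ⊕ Fin n) ℂ) (q : ℕ) :
    ∀ᶠ a in (U : Filter (Fin m → ℚ)), ∀ y : (Fin N → Qa) × (Fin n × Fin (r + 1) → Qa),
      ((∀ i s, ∑ j : Fin (r + 1), y.2 (i, j) * ((Function.update x r a j s : ℚ) : Qa) = 0) ∧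
      (lin (fun l => (y.1 l : ℂ)) (TV.pt lam y.2)
        (fun i => (y.2 (i, Fin.last r) : ℂ)) P).coeff q ∈ Submodule.span Qa {(1 : ℂ)}) →
      (lin (fun l => (y.1 l : ℂ)) (TV.pt lam y.2)
        (fun i => (y.2 (i, Fin.last r) : ℂ)) P).coeff (q + 1) = 0 :=
  all_of_choice U _ _ fun y hy => stepB_aux hm lam hlam hlog x U hU P q (fun a => (y a).1)
    (fun a => (y a).2) (hy.mono fun a ha => ha.1) (hy.mono fun a ha => ha.2)

/-- The column lemma: a value in `Lt` forces the function to be affine on the line in the direction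
of the new logarithm, with algebraic slope. -/
theorem col {m n N r : ℕ} (hm : N + (n + 2) ^ 2 ≤ m) (lam : Fin (r + 1) → ℂ)
    (hlam : LinearIndependent Qa lam) (hlog : ∀ j, lam j ∈ Lsp) (x : ℕ → Fin m → ℚ)
    (U : Ultrafilter (Fin m → ℚ)) (hU : Gen U) (P : MvPolynomial (Fin N ⊕ Fin n) ℂ) :
    ∀ᶠ a in (U : Filter (Fin m → ℚ)), ∀ (z : Fin N → Qa) (M : Fin n × Fin (r + 1) → Qa),
      (∀ i s, ∑ j : Fin (r + 1), M (i, j) * ((Function.update x r a j s : ℚ) : Qa) = 0) →
      eval (Sum.elim (fun l => (z l : ℂ)) (TV.pt lam M)) P ∈ Lt →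
      ∃ κ : Qa, ∀ s : ℂ, eval (Sum.elim (fun l => (z l : ℂ))
        (fun i => TV.pt lam M i + s * (M (i, Fin.last r) : ℂ))) P =
          eval (Sum.elim (fun l => (z l : ℂ)) (TV.pt lam M)) P + (κ : ℂ) * s := by
  classical
  have hA := stepA hm lam hlam hlog x U hU P 0
  have hB : ∀ᶠ a in (U : Filter (Fin m → ℚ)), ∀ q ∈ Finset.range (P.totalDegree + 1),
      ∀ y : (Fin N → Qa) × (Fin n × Fin (r + 1) → Qa),
      ((∀ i s, ∑ j : Fin (r + 1), y.2 (i, j) * ((Function.update x r a j s : ℚ) : Qa) = 0) ∧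
      (lin (fun l => (y.1 l : ℂ)) (TV.pt lam y.2)
        (fun i => (y.2 (i, Fin.last r) : ℂ)) P).coeff q ∈ Submodule.span Qa {(1 : ℂ)}) →
      (lin (fun l => (y.1 l : ℂ)) (TV.pt lam y.2)
        (fun i => (y.2 (i, Fin.last r) : ℂ)) P).coeff (q + 1) = 0 := by
    rw [Filter.eventually_all_finset]
    exact fun q _ => stepB hm lam hlam hlog x U hU P q
  filter_upwards [hA, hB] with a ha hb z M hM h0
  obtain ⟨F, hF⟩ : ∃ F, F = lin (fun l => (z l : ℂ)) (TV.pt lam M)
      (fun i => (M (i, Fin.last r) : ℂ)) P := ⟨_, rfl⟩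
  obtain ⟨κ, hκ⟩ := ha (z, M) ⟨hM, by rw [coeff_zero_lin]; exact h0⟩
  rw [← hF] at hκ
  have h2 : ∀ j, F.coeff (j + 2) = 0 := by
    intro j
    by_cases hj : j + 2 ≤ P.totalDegree
    · induction j with
      | zero =>
        have h3 := hb 1 (Finset.mem_range.2 (by omega)) (z, M) ⟨hM, by
          rw [← hF]
          refine Submodule.mem_span_singleton.2 ⟨κ, ?_⟩
          rw [smul_eq'', mul_one]
          exact hκ.symm⟩
        rw [← hF] at h3
        exact h3
      | succ j ih =>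
        have h3 := hb (j + 2) (Finset.mem_range.2 (by omega)) (z, M) ⟨hM, by
          rw [← hF, ih (by omega)]
          exact Submodule.zero_mem _⟩
        rw [← hF] at h3
        exact h3
    · refine Polynomial.coeff_eq_zero_of_natDegree_lt ?_
      rw [hF]
      exact lt_of_le_of_lt (natDegree_lin _ _ _ _) (by omega)
  refine ⟨κ, fun s => ?_⟩
  rw [← eval_lin, ← hF]
  have h3 : F = Polynomial.C (F.coeff 0) + Polynomial.C (κ : ℂ) * Polynomial.X := by
    ext j
    rcases j with _ | _ | j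
    · simp
    · simp only [zero_add] at hκ ⊢
      rw [Polynomial.coeff_add, Polynomial.coeff_C_mul, Polynomial.coeff_X_one, mul_one, hκ,
        Polynomial.coeff_C, if_neg one_ne_zero, zero_add]
    · rw [h2 j, Polynomial.coeff_add, Polynomial.coeff_C_mul, Polynomial.coeff_X,
        Polynomial.coeff_C, if_neg (by omega), if_neg (by omega), mul_zero, add_zero]
  rw [h3, Polynomial.eval_add, Polynomial.eval_mul, Polynomial.eval_C, Polynomial.eval_C,
    Polynomial.eval_X, ← coeff_zero_lin _ _ (fun i => (M (i, Fin.last r) : ℂ)), ← hF]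

end MP60829e.FL
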