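import Pool.Agent.Lib.MP_60829e_nt.FL.Desc
import Pool.Agent.Lib.MP_60829e_nt.FR.Dep
import Pool.Agent.Lib.MP_60829e_nt.CBaker
import Pool.Agent.Lib.MP_60829e_nt.FC.Basis

/-! # Values in `Lt` for arbitrary tuples -/

open MvPolynomial Module

namespace MP60829e.FL

open MP60829e.ST (Qa Lsp Lt)
open MP60829e.FC (Xr Gen)
open MP60829e.FR (PT za eval_PT exists_basis Rels kp ep kp_eq le_of_emb)

private theorem smul_eq4 (c : Qa) (z : ℂ) : c • z = (c : ℂ) * z := rfl

private theorem eval_ext' {σ τ : Type} (P : MvPolynomial σ ℂ) (f : σ → MvPolynomial τ ℂ)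
    (x : τ → ℂ) : eval x (aeval f P) = eval (fun s => eval x (f s)) P := by
  induction P using MvPolynomial.induction_on with
  | C a => rw [algHom_C, eval_C, MvPolynomial.algebraMap_eq, eval_C]
  | add p q hp hq => rw [map_add, map_add, map_add, hp, hq]
  | mul_X p i hp => rw [map_mul, map_mul, map_mul, hp, aeval_X, eval_X]

theorem algVal_of_coeff {σ : Type} {A : Submodule Qa ℂ} {P : MvPolynomial σ ℂ}
    (h : ∀ a, coeff a P ∈ A) : AlgVal A P := fun y => eval_mem A P h y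

theorem algVal_PT {N n n' : ℕ} (ι : Fin n' ↪ Fin n) {A : Submodule Qa ℂ}
    {P : MvPolynomial (Fin N ⊕ Fin n) ℂ} (h : AlgVal A P) : AlgVal A (PT ι P) := by
  classical
  intro y
  unfold FR.PT
  rw [eval_ext']
  have h1 : ∀ s : Fin N ⊕ Fin n, ∃ q : Qa, (q : ℂ) = eval (fun s => (y s : ℂ))
      ((Sum.elim (fun l => X (Sum.inl (Fin.castAdd _ l)))
        (fun i => if h : i ∈ (Set.range ι)ᶜ then
          ∑ j, X (Sum.inl (Fin.natAdd N (ep ι (⟨i, h⟩, j)))) * X (Sum.inr j)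
        else X (Sum.inr (Classical.choose (Set.mem_range.1 (Set.notMem_compl_iff.1 h)))))
        : Fin N ⊕ Fin n → MvPolynomial (Fin (N + kp ι) ⊕ Fin n') ℂ) s) := by
    rintro (l | i)
    · rw [Sum.elim_inl, eval_X]
      exact ⟨_, rfl⟩
    · rw [Sum.elim_inr]
      split_ifs with hi
      · refine ⟨∑ j, y (Sum.inl (Fin.natAdd N (ep ι (⟨i, hi⟩, j)))) * y (Sum.inr j), ?_⟩
        rw [map_sum]
        push_cast
        exact Finset.sum_congr rfl fun j _ => by rw [map_mul, eval_X, eval_X]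
      · rw [eval_X]
        exact ⟨_, rfl⟩
  choose q hq using h1
  have h2 := h q
  simp only [hq] at h2
  exact h2

/-- The property for all the restrictions to subspaces. -/
def GoodLR {N n : ℕ} (A : Submodule Qa ℂ) (P : MvPolynomial (Fin N ⊕ Fin n) ℂ)
    (X V : Submodule Qa ℂ) : Prop := ∀ (n' : ℕ) (ι : Fin n' ↪ Fin n), GoodL A (PT ι P) X V

theorem goodLR_base {N n : ℕ} {A : Submodule Qa ℂ} {P : MvPolynomial (Fin N ⊕ Fin n) ℂ}
    (hA : AlgVal A P) (X : Submodule Qa ℂ) : GoodLR A P X X :=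
  fun _ ι => goodL_base A (PT ι P) (algVal_PT ι hA) X

theorem arithL {N n n' m : ℕ} (hn : n' ≤ n) (hm : N + (n + 2) ^ 2 ≤ m) :
    N + (n - n') * n' + (n' + 2) ^ 2 ≤ m := by
  obtain ⟨k, rfl⟩ := Nat.exists_eq_add_of_le hn
  refine le_trans ?_ hm
  rw [Nat.add_sub_cancel_left]
  nlinarith [Nat.zero_le (k * k), Nat.zero_le (k * n')]

theorem goodLR_step {N n m r : ℕ} (hm : N + (n + 2) ^ 2 ≤ m) (lam : ℕ → ℂ)
    (hlam : LinearIndependent Qa lam) (hlog : ∀ j, lam j ∈ Lsp) (x : ℕ → Fin m → ℚ)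
    (U : Ultrafilter (Fin m → ℚ)) (hU : Gen U) (A : Submodule Qa ℂ)
    (P : MvPolynomial (Fin N ⊕ Fin n) ℂ) (h1A : (1 : ℂ) ∈ A)
    (V : Submodule Qa ℂ) (h : GoodLR A P (Xr lam x r) V) :
    ∀ᶠ a in (U : Filter (Fin m → ℚ)), GoodLR A P (Xr lam (Function.update x r a) (r + 1)) V := by
  have h1 : ∀ (n' : Fin (n + 1)) (ι : Fin (n' : ℕ) ↪ Fin n),
      ∀ᶠ a in (U : Filter (Fin m → ℚ)),
        GoodL A (PT ι P) (Xr lam (Function.update x r a) (r + 1)) V := by
    intro n' ι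
    refine goodL_step ?_ lam hlam hlog x U hU A (PT ι P) h1A V (h n' ι)
    rw [kp_eq]
    exact arithL (le_of_emb ι) hm
  have h2 : ∀ᶠ a in (U : Filter (Fin m → ℚ)), ∀ (n' : Fin (n + 1)) (ι : Fin (n' : ℕ) ↪ Fin n),
      GoodL A (PT ι P) (Xr lam (Function.update x r a) (r + 1)) V :=
    Filter.eventually_all.2 fun n' => Filter.eventually_all.2 fun ι => h1 n' ι
  filter_upwards [h2] with a ha n' ι
  have h3 := le_of_emb ι
  exact ha ⟨n', by omega⟩ ι

/-- From independent to arbitrary tuples. -/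
theorem goodLR_main {N n : ℕ} {A : Submodule Qa ℂ} {P : MvPolynomial (Fin N ⊕ Fin n) ℂ}
    {X V : Submodule Qa ℂ} (h : GoodLR A P X V) (z : Fin N → Qa)
    (w : Fin n → ℂ) (hw : ∀ j, w j ∈ X)
    (hd : Disjoint (Submodule.span Qa (Set.range w)) V)
    (hdA : Disjoint (Submodule.span Qa (Set.range w)) A)
    (h0 : eval (Sum.elim (fun l => (z l : ℂ)) w) P ∈ Lt) :
    ∃ a ∈ A, ∃ α : Fin n → Qa, ∀ x : Fin n → ℂ, Rels w x →
      eval (Sum.elim (fun l => (z l : ℂ)) x) P = a + ∑ j, (α j : ℂ) * x j := by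
  classical
  obtain ⟨n', ι, B, hli, hB⟩ := exists_basis w
  have hsp : Submodule.span Qa (Set.range fun j => w (ι j)) ≤
      Submodule.span Qa (Set.range w) := by
    refine Submodule.span_mono ?_
    rintro _ ⟨j, rfl⟩
    exact ⟨ι j, rfl⟩
  rw [← eval_PT ι P z B w (hB w fun q hq => hq)] at h0
  obtain ⟨a, ha, α, hα⟩ := goodL_main (h n' ι) (za ι z B) (fun j => w (ι j)) (fun j => hw _) hli
    (hd.mono_left hsp) (hdA.mono_left hsp) h0
  refine ⟨a, ha, Function.extend ι α 0, fun x hx => ?_⟩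
  rw [← eval_PT ι P z B x (hB x hx), hα]
  congr 1
  have h1 : ∑ i, ((Function.extend ι α 0 i : Qa) : ℂ) * x i =
      ∑ i ∈ Finset.univ.map ι, ((Function.extend ι α 0 i : Qa) : ℂ) * x i := by
    symm
    refine Finset.sum_subset (Finset.subset_univ _) fun i _ hi => ?_
    have h2 : ¬ ∃ j, ι j = i := by
      rintro ⟨j, rfl⟩
      exact hi (Finset.mem_map_of_mem ι (Finset.mem_univ j))
    rw [Function.extend_apply' _ _ _ h2]
    simp
  rw [h1, Finset.sum_map]
  refine Finset.sum_congr rfl fun j _ => ?_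
  rw [ι.injective.extend_apply]

/-- Baker's theorem: a space of linear forms in logarithms has no algebraic number except zero. -/
theorem Lsp_disjoint_one : Disjoint Lsp (Submodule.span Qa {(1 : ℂ)}) := by
  classical
  rw [Submodule.disjoint_def]
  intro v hv hv1
  obtain ⟨β, rfl⟩ := Submodule.mem_span_singleton.1 hv1
  obtain ⟨lam, halg, hli, hspan⟩ := FC.exists_lam
  have h1 : Lsp ≤ Submodule.span Qa (Set.range lam) := by
    unfold ST.Lsp
    rw [Submodule.span_le]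
    intro l hl
    exact Submodule.span_le_restrictScalars ℚ Qa (Set.range lam) (hspan l hl)
  obtain ⟨c, hc⟩ := Finsupp.mem_span_range_iff_exists_finsupp.1 (h1 hv)
  have h2 := Pool.Agent.Lib.MP_60829e_nt.Bk.baker (I := {j : ℕ // j ∈ c.support})
    (lam := fun j => lam j) (fun j => halg j) (hli.comp _ Subtype.val_injective)
    (-(β : ℂ)) (mem_algebraicClosure_iff.mp β.2).neg
    (fun j => ((c j : Qa) : ℂ)) (fun j => mem_algebraicClosure_iff.mp (c j).2) (by
      rw [smul_eq4, mul_one] at hc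
      rw [← hc, Finsupp.sum, ← Finset.sum_attach c.support (fun j => c j • lam j),
        neg_add_eq_zero]
      refine Finset.sum_congr rfl fun j _ => ?_
      rw [smul_eq4, mul_comm])
  rw [smul_eq4, mul_one]
  exact neg_eq_zero.1 h2.1

/-- The conclusion for algebraic coefficients. -/
theorem goodLR_alg {N n : ℕ} {P : MvPolynomial (Fin N ⊕ Fin n) ℂ}
    {X V : Submodule Qa ℂ} (h : GoodLR (Submodule.span Qa {(1 : ℂ)}) P X V) (hX : X ≤ Lsp)
    (z : Fin N → Qa) (w : Fin n → ℂ) (hw : ∀ j, w j ∈ X)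
    (hd : Disjoint (Submodule.span Qa (Set.range w)) V)
    (h0 : eval (Sum.elim (fun l => (z l : ℂ)) w) P ∈ Lt) :
    ∃ (b : Qa) (α : Fin n → Qa), ∀ x : Fin n → ℂ, Rels w x →
      eval (Sum.elim (fun l => (z l : ℂ)) x) P = (b : ℂ) + ∑ j, (α j : ℂ) * x j := by
  have h1 : Submodule.span Qa (Set.range w) ≤ Lsp := by
    refine Submodule.span_le.2 ?_
    rintro _ ⟨j, rfl⟩
    exact hX (hw j)
  obtain ⟨a, ha, α, hα⟩ := goodLR_main h z w hw hd (Lsp_disjoint_one.mono_left h1) h0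
  obtain ⟨b, rfl⟩ := Submodule.mem_span_singleton.1 ha
  refine ⟨b, α, fun x hx => ?_⟩
  rw [hα x hx, smul_eq4, mul_one]

/-- Algebraic coefficients give algebraic values. -/
theorem algVal_alg {σ : Type} {P : MvPolynomial σ ℂ} (h : ∀ a, IsAlgebraic ℚ (coeff a P)) :
    AlgVal (Submodule.span Qa {(1 : ℂ)}) P := by
  refine algVal_of_coeff fun a => ?_
  refine Submodule.mem_span_singleton.2 ⟨⟨coeff a P, mem_algebraicClosure_iff.mpr (h a)⟩, ?_⟩
  rw [smul_eq4, mul_one]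

end MP60829e.FL
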