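import Pool.Agent.Lib.MP_60829e_nt.FL.Col
import Pool.Agent.Lib.MP_60829e_nt.FQ.Defs

/-! # Values in `Lt`: the descent -/

open MvPolynomial Module

namespace MP60829e.FL

open MP60829e.ST (Qa Lsp Lt)
open MP60829e.FC (Xr Gen)
open MP60829e.FQ (pw)

private theorem smul_eq3 (c : Qa) (z : ℂ) : c • z = (c : ℂ) * z := rfl

private theorem eval_poly {σ : Type} (P : MvPolynomial σ ℂ) (f : σ → Polynomial ℂ) (u : ℂ) :
    Polynomial.eval u (aeval f P) = eval (fun s => Polynomial.eval u (f s)) P := by
  induction P using MvPolynomial.induction_on with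
  | C a => rw [algHom_C, eval_C, Polynomial.algebraMap_eq, Polynomial.eval_C]
  | add p q hp hq => rw [map_add, map_add, Polynomial.eval_add, hp, hq]
  | mul_X p i hp => rw [map_mul, map_mul, Polynomial.eval_mul, hp, aeval_X, eval_X]

/-- A polynomial which is affine at infinitely many points of a curve is affine on the curve. -/
private theorem affine_of_infinite {σ : Type} (P : MvPolynomial σ ℂ) (f : σ → Polynomial ℂ)
    (S : Set ℂ) (hS : S.Infinite) (A B : ℂ)
    (h : ∀ u ∈ S, eval (fun s => Polynomial.eval u (f s)) P = A + B * u) (u : ℂ) :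
    eval (fun s => Polynomial.eval u (f s)) P = A + B * u := by
  have h1 : aeval f P = Polynomial.C A + Polynomial.C B * Polynomial.X := by
    refine Polynomial.eq_of_infinite_eval_eq _ _ (hS.mono fun u hu => ?_)
    change Polynomial.eval u (aeval f P) = _
    rw [eval_poly, h u hu]
    simp
  rw [← eval_poly, h1]
  simp

private theorem eval_ext {σ τ : Type} (P : MvPolynomial σ ℂ) (f : σ → MvPolynomial τ ℂ)
    (x : τ → ℂ) : eval x (aeval f P) = eval (fun s => eval x (f s)) P := by
  induction P using MvPolynomial.induction_on with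
  | C a => rw [algHom_C, eval_C, MvPolynomial.algebraMap_eq, eval_C]
  | add p q hp hq => rw [map_add, map_add, map_add, hp, hq]
  | mul_X p i hp => rw [map_mul, map_mul, map_mul, hp, aeval_X, eval_X]

/-- `P (z, ι_* X)`. -/
private noncomputable def PA {N n n' : ℕ} (ι : Fin n' ↪ Fin n)
    (P : MvPolynomial (Fin N ⊕ Fin n) ℂ) : MvPolynomial (Fin N ⊕ Fin n') ℂ :=
  aeval (Sum.elim (fun l => X (Sum.inl l))
    (fun i => Function.extend ι (fun j => (X (Sum.inr j) : MvPolynomial (Fin N ⊕ Fin n') ℂ)) 0 i)) P

/-- `P (z, c + ι_* X)`. -/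
private noncomputable def PB {N n n' : ℕ} (ι : Fin n' ↪ Fin n)
    (P : MvPolynomial (Fin N ⊕ Fin n) ℂ) : MvPolynomial (Fin (N + n) ⊕ Fin n') ℂ :=
  aeval (Sum.elim (fun l => X (Sum.inl (Fin.castAdd n l)))
    (fun i => X (Sum.inl (Fin.natAdd N i)) +
      Function.extend ι (fun j => (X (Sum.inr j) : MvPolynomial (Fin (N + n) ⊕ Fin n') ℂ)) 0 i)) P

private theorem eval_extend {τ : Type} {n n' : ℕ} (ι : Fin n' ↪ Fin n) (y : τ → ℂ)
    (f : Fin n' → MvPolynomial τ ℂ) (i : Fin n) :
    eval y (Function.extend ι f 0 i) = Function.extend ι (fun j => eval y (f j)) 0 i := by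
  by_cases h : ∃ j, ι j = i
  · obtain ⟨j, rfl⟩ := h
    rw [ι.injective.extend_apply, ι.injective.extend_apply]
  · rw [Function.extend_apply' _ _ _ h, Function.extend_apply' _ _ _ h, Pi.zero_apply,
      Pi.zero_apply, map_zero]

private theorem eval_PA {N n n' : ℕ} (ι : Fin n' ↪ Fin n) (P : MvPolynomial (Fin N ⊕ Fin n) ℂ)
    (z : Fin N → Qa) (x : Fin n' → ℂ) :
    eval (Sum.elim (fun l => (z l : ℂ)) x) (PA ι P) = eval (pw z 0 ι x) P := by
  unfold PA pw
  rw [eval_ext]
  congr 2
  funext s
  rcases s with l | i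
  · rw [Sum.elim_inl, eval_X, Sum.elim_inl, Sum.elim_inl]
  · rw [Sum.elim_inr, Sum.elim_inr, eval_extend, Pi.zero_apply]
    simp only [eval_X, Sum.elim_inr]
    rw [ZeroMemClass.coe_zero, zero_add]

private theorem eval_PB {N n n' : ℕ} (ι : Fin n' ↪ Fin n) (P : MvPolynomial (Fin N ⊕ Fin n) ℂ)
    (z : Fin N → Qa) (c : Fin n → Qa) (x : Fin n' → ℂ) :
    eval (Sum.elim (fun l => ((Fin.append z c l : Qa) : ℂ)) x) (PB ι P) =
      eval (pw z c ι x) P := by
  unfold PB pw
  rw [eval_ext]
  congr 2
  funext s
  rcases s with l | i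
  · rw [Sum.elim_inl, eval_X, Sum.elim_inl, Sum.elim_inl, Fin.append_left]
  · rw [Sum.elim_inr, Sum.elim_inr, map_add, eval_extend, eval_X, Sum.elim_inl, Fin.append_right]
    simp only [eval_X, Sum.elim_inr]

/-- The property carried through the induction: `A` contains `1` and the coefficients of `P`; for
all tuples in `X` independent modulo `V` and modulo `A` a value in `Lt`, with some coordinates
algebraic and fixed, forces `P` to be affine. -/
def GoodL {N n : ℕ} (A : Submodule Qa ℂ) (P : MvPolynomial (Fin N ⊕ Fin n) ℂ)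
    (X V : Submodule Qa ℂ) : Prop :=
  ∀ (n' : ℕ) (ι : Fin n' ↪ Fin n) (z : Fin N → Qa) (c : Fin n → Qa), (n' = n → c = 0) →
    ∀ w : Fin n' → ℂ, (∀ j, w j ∈ X) → LinearIndependent Qa w →
      Disjoint (Submodule.span Qa (Set.range w)) V →
      Disjoint (Submodule.span Qa (Set.range w)) A → eval (pw z c ι w) P ∈ Lt →
        ∃ a ∈ A, ∃ α : Fin n' → Qa, ∀ v : Fin n' → ℂ,
          eval (pw z c ι v) P = a + ∑ j, (α j : ℂ) * v j

/-- The values at algebraic points. -/
theorem eval_mem {σ : Type} (A : Submodule Qa ℂ) (P : MvPolynomial σ ℂ)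
    (hA : ∀ a, coeff a P ∈ A) (y : σ → Qa) : eval (fun s => (y s : ℂ)) P ∈ A := by
  rw [eval_eq]
  refine Submodule.sum_mem _ fun a _ => ?_
  have h1 : coeff a P * ∏ i ∈ a.support, (y i : ℂ) ^ a i =
      (∏ i ∈ a.support, y i ^ a i : Qa) • coeff a P := by
    rw [smul_eq3]
    push_cast
    ring
  rw [h1]
  exact A.smul_mem _ (hA a)

/-- The values at algebraic points are in `A`. -/
def AlgVal {σ : Type} (A : Submodule Qa ℂ) (P : MvPolynomial σ ℂ) : Prop :=
  ∀ y : σ → Qa, eval (fun s => (y s : ℂ)) P ∈ A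

/-- The base: there are only empty tuples. -/
theorem goodL_base {N n : ℕ} (A : Submodule Qa ℂ) (P : MvPolynomial (Fin N ⊕ Fin n) ℂ)
    (hA : AlgVal A P) (X : Submodule Qa ℂ) : GoodL A P X X := by
  intro n' ι z c _ w hw hli hd _ _
  cases n' with
  | zero =>
    refine ⟨eval (pw z c ι 0) P, ?_, 0, fun v => ?_⟩
    · have h1 : pw z c ι 0 = fun s => ((Sum.elim z c s : Qa) : ℂ) := by
        unfold pw
        funext s
        rcases s with l | i
        · rfl
        · rw [Sum.elim_inr, Sum.elim_inr, Function.extend_apply' _ _ _ (by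
            rintro ⟨j, _⟩
            exact j.elim0), Pi.zero_apply, add_zero]
      rw [h1]
      exact hA _
    · rw [Subsingleton.elim v 0]
      simp
  | succ k =>
    exfalso
    exact hli.ne_zero 0
      ((Submodule.disjoint_def.1 hd) (w 0) (Submodule.subset_span ⟨0, rfl⟩) (hw 0))

/-- `n' = n`, `ι` the identity, `c = 0`. -/
theorem goodL_main {N n : ℕ} {A : Submodule Qa ℂ} {P : MvPolynomial (Fin N ⊕ Fin n) ℂ}
    {X V : Submodule Qa ℂ}
    (h : GoodL A P X V) (z : Fin N → Qa) (w : Fin n → ℂ) (hw : ∀ j, w j ∈ X)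
    (hli : LinearIndependent Qa w) (hd : Disjoint (Submodule.span Qa (Set.range w)) V)
    (hdA : Disjoint (Submodule.span Qa (Set.range w)) A)
    (h0 : eval (Sum.elim (fun l => (z l : ℂ)) w) P ∈ Lt) :
    ∃ a ∈ A, ∃ α : Fin n → Qa, ∀ v : Fin n → ℂ,
      eval (Sum.elim (fun l => (z l : ℂ)) v) P = a + ∑ j, (α j : ℂ) * v j := by
  have h1 : ∀ y : Fin n → ℂ, pw z 0 (Function.Embedding.refl _) y =
      Sum.elim (fun l => (z l : ℂ)) y := by
    intro y
    unfold pw
    congr 1
    funext i
    have h2 := (Function.Embedding.refl (Fin n)).injective.extend_apply y 0 i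
    rw [Function.Embedding.refl_apply] at h2
    rw [Pi.zero_apply, ZeroMemClass.coe_zero, zero_add, h2]
  have h2 := h n (Function.Embedding.refl _) z 0 (fun _ => rfl) w hw hli hd hdA
    (by rw [h1]; exact h0)
  simp only [h1] at h2
  exact h2

/-- The conclusion of the column lemma for all the restrictions of `P`. -/
private def ColL {N n m r : ℕ} (lam : ℕ → ℂ) (x : ℕ → Fin m → ℚ)
    (P : MvPolynomial (Fin N ⊕ Fin n) ℂ) (a : Fin m → ℚ) (n' : ℕ) (ι : Fin n' ↪ Fin n) : Prop :=
  ∀ (z : Fin N → Qa) (c : Fin n → Qa), (n' = n → c = 0) → ∀ M : Fin n' × Fin (r + 1) → Qa,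
    (∀ i s, ∑ j : Fin (r + 1), M (i, j) * ((Function.update x r a j s : ℚ) : Qa) = 0) →
    eval (pw z c ι (TV.pt (fun j : Fin (r + 1) => lam j) M)) P ∈ Lt →
    ∃ κ : Qa, ∀ s : ℂ, eval (pw z c ι (fun i => TV.pt (fun j : Fin (r + 1) => lam j) M i +
      s * (M (i, Fin.last r) : ℂ))) P =
        eval (pw z c ι (TV.pt (fun j : Fin (r + 1) => lam j) M)) P + (κ : ℂ) * s

private theorem col_all {N n m r : ℕ} (hm : N + (n + 2) ^ 2 ≤ m) (lam : ℕ → ℂ)
    (hlam : LinearIndependent Qa lam) (hlog : ∀ j, lam j ∈ Lsp) (x : ℕ → Fin m → ℚ)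
    (U : Ultrafilter (Fin m → ℚ)) (hU : Gen U) (P : MvPolynomial (Fin N ⊕ Fin n) ℂ) :
    ∀ᶠ a in (U : Filter (Fin m → ℚ)), ∀ (n' : ℕ) (ι : Fin n' ↪ Fin n),
      ColL (r := r) lam x P a n' ι := by
  have hlam' : LinearIndependent Qa (fun j : Fin (r + 1) => lam j) :=
    hlam.comp _ Fin.val_injective
  have h1 : ∀ (n' : Fin (n + 1)) (ι : Fin (n' : ℕ) ↪ Fin n),
      ∀ᶠ a in (U : Filter (Fin m → ℚ)), ColL (r := r) lam x P a n' ι := by
    rintro ⟨n', hn'⟩ ι
    dsimp only at ι ⊢
    by_cases hnn : n' = n
    · subst hnn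
      filter_upwards [col hm (fun j : Fin (r + 1) => lam j) hlam' (fun j => hlog j) x U hU
        (PA ι P)] with a ha z c hc M hM h0
      rw [hc rfl] at h0 ⊢
      rw [← eval_PA] at h0
      obtain ⟨κ, hκ⟩ := ha z M hM h0
      refine ⟨κ, fun s => ?_⟩
      rw [← eval_PA, ← eval_PA]
      exact hκ s
    · have hlt : n' + 1 ≤ n := by omega
      have hm' : (N + n) + (n' + 2) ^ 2 ≤ m := by
        refine le_trans ?_ hm
        have h2 : (n' + 2) ^ 2 ≤ (n + 1) ^ 2 := Nat.pow_le_pow_left (by omega) 2
        have h3 : (n + 2) ^ 2 = (n + 1) ^ 2 + (2 * n + 3) := by ring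
        omega
      filter_upwards [col hm' (fun j : Fin (r + 1) => lam j) hlam' (fun j => hlog j) x U hU
        (PB ι P)] with a ha z c hc M hM h0
      rw [← eval_PB] at h0
      obtain ⟨κ, hκ⟩ := ha (Fin.append z c) M hM h0
      refine ⟨κ, fun s => ?_⟩
      rw [← eval_PB, ← eval_PB]
      exact hκ s
  have h2 : ∀ᶠ a in (U : Filter (Fin m → ℚ)), ∀ (n' : Fin (n + 1)) (ι : Fin (n' : ℕ) ↪ Fin n),
      ColL (r := r) lam x P a n' ι :=
    Filter.eventually_all.2 fun n' => Filter.eventually_all.2 fun ι => h1 n' ι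
  filter_upwards [h2] with a ha n' ι
  have h3 : n' < n + 1 := by
    have h4 := Fintype.card_le_of_embedding ι
    rw [Fintype.card_fin, Fintype.card_fin] at h4
    omega
  exact ha ⟨n', h3⟩ ι

private theorem Lsp_le_Lt' : Lsp ≤ Lt := by
  unfold ST.Lsp ST.Lt
  exact Submodule.span_mono Set.subset_union_right

private theorem Xr_le_Lsp {m r : ℕ} (lam : ℕ → ℂ) (hlog : ∀ j, lam j ∈ Lsp)
    (x : ℕ → Fin m → ℚ) : Xr lam x r ≤ Lsp := by
  rintro _ ⟨c, -, rfl⟩
  exact Submodule.sum_mem _ fun j _ => Lsp.smul_mem _ (hlog j)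

/-- The step of the descent. -/
theorem goodL_step {N n m r : ℕ} (hm : N + (n + 2) ^ 2 ≤ m) (lam : ℕ → ℂ)
    (hlam : LinearIndependent Qa lam) (hlog : ∀ j, lam j ∈ Lsp) (x : ℕ → Fin m → ℚ)
    (U : Ultrafilter (Fin m → ℚ)) (hU : Gen U) (A : Submodule Qa ℂ)
    (P : MvPolynomial (Fin N ⊕ Fin n) ℂ) (h1A : (1 : ℂ) ∈ A)
    (V : Submodule Qa ℂ) (h : GoodL A P (Xr lam x r) V) :
    ∀ᶠ a in (U : Filter (Fin m → ℚ)), GoodL A P (Xr lam (Function.update x r a) (r + 1)) V := by
  classical
  filter_upwards [col_all (r := r) hm lam hlam hlog x U hU P] with a ha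
  intro n' ι z c hc w hw hli hd hdA h0
  -- the matrix
  have hw' : ∀ i, ∃ cc : Fin (r + 1) → Qa,
      (∀ s, ∑ j, cc j * ((Function.update x r a j s : ℚ) : Qa) = 0) ∧
        w i = ∑ j, cc j • lam j := fun i => hw i
  choose M0 hM0 hM0' using hw'
  obtain ⟨M, hM⟩ : ∃ M : Fin n' × Fin (r + 1) → Qa, M = fun p => M0 p.1 p.2 := ⟨_, rfl⟩
  have hMw : TV.pt (fun j : Fin (r + 1) => lam j) M = w := by
    funext i
    rw [hM0' i, hM]
    rfl
  have hM1 : ∀ i s, ∑ j : Fin (r + 1), M (i, j) * ((Function.update x r a j s : ℚ) : Qa) = 0 := by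
    intro i s
    rw [hM]
    exact hM0 i s
  obtain ⟨κ, hline⟩ := ha n' ι z c hc M hM1 (by rw [hMw]; exact h0)
  rw [hMw] at hline
  obtain ⟨d, hdd⟩ : ∃ d : Fin n' → Qa, d = fun i => M (i, Fin.last r) := ⟨_, rfl⟩
  have hline' : ∀ s : ℂ, eval (pw z c ι (fun i => w i + s * (d i : ℂ))) P =
      eval (pw z c ι w) P + (κ : ℂ) * s := by
    intro s
    rw [hdd]
    exact hline s
  -- elements with last coordinate zero
  have hlast : ∀ cc : Fin (r + 1) → Qa, cc (Fin.last r) = 0 →
      (∀ s, ∑ j, cc j * ((Function.update x r a j s : ℚ) : Qa) = 0) →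
      ∑ j, cc j • (fun j : Fin (r + 1) => lam j) j ∈ Xr lam x r := by
    intro cc hcc hcs
    refine ⟨fun j => cc j.castSucc, fun s => ?_, ?_⟩
    · have h1 := hcs s
      rw [Fin.sum_univ_castSucc, hcc, zero_mul, add_zero] at h1
      rw [← h1]
      refine Finset.sum_congr rfl fun j _ => ?_
      rw [Function.update_of_ne]
      · rfl
      · rw [Fin.val_castSucc]
        exact (Fin.is_lt j).ne
    · rw [Fin.sum_univ_castSucc, hcc, zero_smul, add_zero]
      rfl
  by_cases hd0 : ∀ i, d i = 0
  · -- all the numbers are in `Xr lam x r`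
    refine h n' ι z c hc w (fun i => ?_) hli hd hdA h0
    rw [hM0' i]
    refine hlast (M0 i) ?_ (hM0 i)
    have h1 := hd0 i
    rw [hdd, hM] at h1
    exact h1
  · push Not at hd0
    obtain ⟨j0, hj0⟩ := hd0
    cases n' with
    | zero => exact j0.elim0
    | succ k =>
      obtain ⟨q, hq⟩ : ∃ q : Fin k → Qa, q = fun j => d (j0.succAbove j) / d j0 := ⟨_, rfl⟩
      obtain ⟨w', hw'⟩ : ∃ w' : Fin k → ℂ, w' = fun j => w (j0.succAbove j) - q j • w j0 :=
        ⟨_, rfl⟩
      have hw'X : ∀ j, w' j ∈ Xr lam x r := by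
        intro j
        have h1 : w' j = ∑ j', (M0 (j0.succAbove j) j' - q j * M0 j0 j') •
            (fun j : Fin (r + 1) => lam j) j' := by
          rw [hw']
          dsimp only
          rw [hM0' (j0.succAbove j), hM0' j0, Finset.smul_sum, ← Finset.sum_sub_distrib]
          refine Finset.sum_congr rfl fun j' _ => ?_
          rw [sub_smul, mul_smul]
        rw [h1]
        refine hlast _ ?_ fun s => ?_
        · have h2 : M0 (j0.succAbove j) (Fin.last r) = d (j0.succAbove j) := by
            rw [hdd, hM]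
          have h3 : M0 j0 (Fin.last r) = d j0 := by
            rw [hdd, hM]
          rw [h2, h3, hq]
          dsimp only
          rw [div_mul_cancel₀ _ hj0, sub_self]
        · simp only [sub_mul, Finset.sum_sub_distrib, mul_assoc, ← Finset.mul_sum]
          rw [hM0 (j0.succAbove j) s, hM0 j0 s, mul_zero, sub_zero]
      have hw'span : ∀ j, w' j ∈ Submodule.span Qa (Set.range w) := by
        intro j
        rw [hw']
        exact Submodule.sub_mem _ (Submodule.subset_span ⟨_, rfl⟩)
          (Submodule.smul_mem _ _ (Submodule.subset_span ⟨_, rfl⟩))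
      have hli' : LinearIndependent Qa w' := by
        rw [Fintype.linearIndependent_iff]
        intro b hb j
        have h1 : ∑ i, (j0.insertNth (α := fun _ => Qa) (-∑ j, b j * q j) b) i • w i = 0 := by
          rw [Fin.sum_univ_succAbove _ j0, Fin.insertNth_apply_same]
          simp only [Fin.insertNth_apply_succAbove]
          rw [← hb, hw', neg_smul, Finset.sum_smul]
          simp only [smul_sub, Finset.sum_sub_distrib, mul_smul]
          ring
        have h2 := (Fintype.linearIndependent_iff.1 hli) _ h1 (j0.succAbove j)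
        rw [Fin.insertNth_apply_succAbove] at h2
        exact h2
      have hsp : Submodule.span Qa (Set.range w') ≤ Submodule.span Qa (Set.range w) := by
        refine Submodule.span_le.2 ?_
        rintro _ ⟨j, rfl⟩
        exact hw'span j
      have hd' : Disjoint (Submodule.span Qa (Set.range w')) V := hd.mono_left hsp
      have hdA' : Disjoint (Submodule.span Qa (Set.range w')) A := hdA.mono_left hsp
      obtain ⟨ι', hι'⟩ : ∃ ι' : Fin k ↪ Fin n, ι' = (Fin.succAboveEmb j0).trans ι := ⟨_, rfl⟩
      have hι'a : ∀ j, ι' j = ι (j0.succAbove j) := by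
        intro j
        rw [hι']
        rfl
      have hkn : k ≠ n := by
        have h4 := Fintype.card_le_of_embedding ι
        rw [Fintype.card_fin, Fintype.card_fin] at h4
        omega
      -- the comparison of the points
      have hpt : ∀ (t : Qa) (y : Fin k → ℂ),
          pw z (fun i => c i + Function.extend ι (fun j => t * d j) 0 i) ι' y =
            pw z c ι (j0.insertNth (α := fun _ => ℂ) ((t * d j0 : Qa) : ℂ)
              (fun j => y j + ((t * d (j0.succAbove j) : Qa) : ℂ))) := by
        intro t y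
        unfold FQ.pw
        congr 1
        funext i
        beta_reduce
        by_cases hi : ∃ j, ι j = i
        · obtain ⟨j, rfl⟩ := hi
          rw [ι.injective.extend_apply, ι.injective.extend_apply]
          obtain hj | ⟨j', rfl⟩ := Fin.eq_self_or_eq_succAbove j0 j
          · subst hj
            rw [Fin.insertNth_apply_same]
            have h5 : ¬ ∃ j', ι' j' = ι j := by
              rintro ⟨j', hj'⟩
              rw [hι'a] at hj'
              exact Fin.succAbove_ne _ _ (ι.injective hj')
            rw [Function.extend_apply' _ _ _ h5, Pi.zero_apply, add_zero]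
            rfl
          · rw [Fin.insertNth_apply_succAbove, ← hι'a, ι'.injective.extend_apply]
            push_cast
            ring
        · rw [Function.extend_apply' _ _ _ hi, Function.extend_apply' _ _ _ hi]
          have h5 : ¬ ∃ j', ι' j' = i := by
            rintro ⟨j', hj'⟩
            rw [hι'a] at hj'
            exact hi ⟨_, hj'⟩
          rw [Function.extend_apply' _ _ _ h5]
          simp only [Pi.zero_apply, add_zero]
      have hj0' : (d j0 : ℂ) ≠ 0 := by
        intro h5
        exact hj0 (by exact_mod_cast h5)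
      -- the value at `w'`
      have hval : ∀ t : Qa, eval (pw z c ι
          (j0.insertNth (α := fun _ => ℂ) ((t * d j0 : Qa) : ℂ)
            (fun j => w' j + ((t * d (j0.succAbove j) : Qa) : ℂ)))) P =
          eval (pw z c ι w) P + (κ : ℂ) * ((t : ℂ) - w j0 / (d j0 : ℂ)) := by
        intro t
        have h5 : (j0.insertNth (α := fun _ => ℂ) ((t * d j0 : Qa) : ℂ)
            (fun j => w' j + ((t * d (j0.succAbove j) : Qa) : ℂ))) =
            fun i => w i + ((t : ℂ) - w j0 / (d j0 : ℂ)) * (d i : ℂ) := by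
          funext i
          obtain hj | ⟨j', rfl⟩ := Fin.eq_self_or_eq_succAbove j0 i
          · subst hj
            rw [Fin.insertNth_apply_same]
            push_cast
            field_simp
            ring
          · rw [Fin.insertNth_apply_succAbove, hw', hq]
            have h6 : (d (j0.succAbove j') / d j0) • w j0 =
                ((d (j0.succAbove j') : ℂ) / (d j0 : ℂ)) * w j0 := by
              rfl
            dsimp only
            rw [h6]
            push_cast
            field_simp
            ring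
        rw [h5]
        exact hline' _
      have hwL : ∀ i, w i ∈ Lsp := fun i => Xr_le_Lsp lam hlog _ (hw i)
      have hvalL : ∀ t : Qa, eval (pw z c ι w) P +
          (κ : ℂ) * ((t : ℂ) - w j0 / (d j0 : ℂ)) ∈ Lt := by
        intro t
        have h5 : (κ : ℂ) * ((t : ℂ) - w j0 / (d j0 : ℂ)) =
            ((κ * t : Qa) : ℂ) - (κ / d j0 : Qa) • w j0 := by
          rw [smul_eq3]
          push_cast
          ring
        rw [h5]
        exact Lt.add_mem h0 (Lt.sub_mem (Qa_mem_Lt _) (Lt.smul_mem _ (Lsp_le_Lt' (hwL j0))))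
      -- the induction hypothesis
      have key0 : ∀ t : Qa, ∃ a ∈ A, ∃ α : Fin k → Qa, ∀ y : Fin k → ℂ, eval (pw z c ι
          (j0.insertNth (α := fun _ => ℂ) ((t * d j0 : Qa) : ℂ)
            (fun j => y j + ((t * d (j0.succAbove j) : Qa) : ℂ)))) P =
              a + ∑ j, (α j : ℂ) * y j := by
        intro t
        have h5 := h k ι' z (fun i => c i + Function.extend ι (fun j => t * d j) 0 i)
          (fun hk => absurd hk hkn) w' hw'X hli' hd' hdA' (by
            rw [hpt, hval]
            exact hvalL t)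
        obtain ⟨a', ha', α, hα⟩ := h5
        refine ⟨a', ha', α, fun y => ?_⟩
        rw [← hpt]
        exact hα y
      choose b hbA α hα using key0
      -- comparison
      have hcmp : ∀ t : Qa, (∀ j, α t j = α 0 j) ∧ b t = b 0 + (κ : ℂ) * (t : ℂ) := by
        intro t
        have h5 := hα t w'
        have h6 := hα 0 w'
        rw [hval] at h5 h6
        have h7 : ∑ j, (α t j - α 0 j) • w' j = -(b t - b 0 - (κ * t) • (1 : ℂ)) := by
          have h8 : ∑ j, (α t j - α 0 j) • w' j =
              ∑ j, (α t j : ℂ) * w' j - ∑ j, (α 0 j : ℂ) * w' j := by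
            rw [← Finset.sum_sub_distrib]
            refine Finset.sum_congr rfl fun j _ => ?_
            rw [sub_smul, smul_eq3, smul_eq3]
          rw [h8, smul_eq3]
          push_cast
          simp only [ZeroMemClass.coe_zero] at h6
          linear_combination h6 - h5
        have h8 : ∑ j, (α t j - α 0 j) • w' j = 0 := by
          refine (Submodule.disjoint_def.1 hdA') _ (Submodule.sum_mem _ fun j _ =>
            Submodule.smul_mem _ _ (Submodule.subset_span ⟨j, rfl⟩)) ?_
          rw [h7]
          exact A.neg_mem (A.sub_mem (A.sub_mem (hbA t) (hbA 0)) (A.smul_mem _ h1A))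
        refine ⟨fun j => ?_, ?_⟩
        · exact sub_eq_zero.1 ((Fintype.linearIndependent_iff.1 hli') _ h8 j)
        · rw [h8, smul_eq3] at h7
          push_cast at h7
          linear_combination h7
      have key : ∀ (t : Qa) (y : Fin k → ℂ), eval (pw z c ι
          (j0.insertNth (α := fun _ => ℂ) ((t * d j0 : Qa) : ℂ)
            (fun j => y j + ((t * d (j0.succAbove j) : Qa) : ℂ)))) P =
              b 0 + (κ : ℂ) * (t : ℂ) + ∑ j, (α 0 j : ℂ) * y j := by
        intro t y
        rw [hα t y, (hcmp t).2]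
        congr 1
        exact Finset.sum_congr rfl fun j _ => by rw [(hcmp t).1 j]
      obtain ⟨β, hβ⟩ : ∃ β : Qa, β = κ / d j0 - ∑ j, α 0 j * (d (j0.succAbove j) / d j0) :=
        ⟨_, rfl⟩
      refine ⟨b 0, hbA 0, j0.insertNth (α := fun _ => Qa) β (α 0), fun v => ?_⟩
      -- a polynomial in one variable
      obtain ⟨f, hf⟩ : ∃ f : Fin N ⊕ Fin n → Polynomial ℂ, f = Sum.elim
          (fun l => Polynomial.C (z l : ℂ))
          (fun i => if i = ι j0 then Polynomial.C (c i : ℂ) + Polynomial.X
            else Polynomial.C ((c i : ℂ) + Function.extend ι v 0 i)) := ⟨_, rfl⟩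
      have hf1 : ∀ u : ℂ, (fun s => Polynomial.eval u (f s)) =
          pw z c ι (Function.update v j0 u) := by
        intro u
        funext s
        rw [hf]
        unfold FQ.pw
        rcases s with l | i
        · simp only [Sum.elim_inl, Polynomial.eval_C]
        · simp only [Sum.elim_inr]
          by_cases hi : i = ι j0
          · subst hi
            rw [if_pos rfl, ι.injective.extend_apply, Function.update_self, Polynomial.eval_add,
              Polynomial.eval_C, Polynomial.eval_X]
          · rw [if_neg hi, Polynomial.eval_C]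
            congr 1
            by_cases hi' : ∃ j, ι j = i
            · obtain ⟨j, rfl⟩ := hi'
              rw [ι.injective.extend_apply, ι.injective.extend_apply, Function.update_of_ne]
              intro h7
              exact hi (by rw [h7])
            · rw [Function.extend_apply' _ _ _ hi', Function.extend_apply' _ _ _ hi']
      have hfin := affine_of_infinite P f (Set.range fun t : Qa => ((t * d j0 : Qa) : ℂ)) ?_
        (b 0 + ∑ j, (α 0 j : ℂ) * v (j0.succAbove j)) (β : ℂ) ?_ (v j0)
      · rw [hf1, Function.update_eq_self] at hfin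
        rw [hfin, Fin.sum_univ_succAbove _ j0, Fin.insertNth_apply_same]
        simp only [Fin.insertNth_apply_succAbove]
        ring
      · refine Set.infinite_range_of_injective ?_
        intro t t' htt
        have h7 : (t * d j0 : Qa) = t' * d j0 := by
          exact Subtype.ext htt
        exact mul_right_cancel₀ hj0 h7
      · rintro _ ⟨t, rfl⟩
        rw [hf1]
        have h7 := key t (fun j => v (j0.succAbove j) - ((t * d (j0.succAbove j) : Qa) : ℂ))
        have h8 : (j0.insertNth (α := fun _ => ℂ) ((t * d j0 : Qa) : ℂ)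
            (fun j => v (j0.succAbove j) - ((t * d (j0.succAbove j) : Qa) : ℂ) +
              ((t * d (j0.succAbove j) : Qa) : ℂ))) =
            Function.update v j0 ((t * d j0 : Qa) : ℂ) := by
          funext i
          obtain hj | ⟨j', rfl⟩ := Fin.eq_self_or_eq_succAbove j0 i
          · subst hj
            rw [Fin.insertNth_apply_same, Function.update_self]
          · rw [Fin.insertNth_apply_succAbove, Function.update_of_ne (Fin.succAbove_ne _ _),
              sub_add_cancel]
        rw [h8] at h7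
        rw [h7, hβ]
        simp only [mul_sub, Finset.sum_sub_distrib]
        have h9 : ∑ j, (α 0 j : ℂ) * ((t * d (j0.succAbove j) : Qa) : ℂ) =
            (∑ j, (α 0 j : ℂ) * ((d (j0.succAbove j) : ℂ) / (d j0 : ℂ))) *
              ((t : ℂ) * (d j0 : ℂ)) := by
          rw [Finset.sum_mul]
          refine Finset.sum_congr rfl fun j _ => ?_
          push_cast
          field_simp
        rw [h9]
        push_cast
        field_simp
        ring

end MP60829e.FL
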