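import Pool.Agent.Lib.MP_60829e_nt.FL.Lin
import Pool.Agent.Lib.MP_60829e_nt.FC.Poly

/-! # The tangent vectors at a generic point -/

open MvPolynomial Module

namespace MP60829e.FL

open MP60829e.ST (Qa Lsp Lt)
open MP60829e.FC (Xr Gen)

theorem ev_rename' {K R : Type} [Field K] [CommRing R] [Algebra K R] {σ τ : Type}
    (f : σ → τ) (c : τ → K) (p : MvPolynomial σ R) :
    TV.ev c (rename f p) = TV.ev (fun s => c (f s)) p := by
  induction p using MvPolynomial.induction_on with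
  | C a => rw [rename_C, TV.ev_C, TV.ev_C]
  | add p q hp hq => rw [map_add, map_add, map_add, hp, hq]
  | mul_X p i hp => rw [map_mul, TV.ev_mul, TV.ev_mul, hp, rename_X, TV.ev_X, TV.ev_X]

theorem dv_rename' {K R : Type} [Field K] [CommRing R] [Algebra K R] {σ τ : Type}
    [Fintype σ] [Fintype τ] (f : σ → τ) (c v : τ → K) (p : MvPolynomial σ R) :
    TV.dv c v (rename f p) = TV.dv (fun s => c (f s)) (fun s => v (f s)) p := by
  induction p using MvPolynomial.induction_on with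
  | C a => rw [rename_C, TV.dv_C, TV.dv_C]
  | add p q hp hq => rw [map_add, TV.dv_add, TV.dv_add, hp, hq]
  | mul_X p i hp =>
    rw [map_mul, TV.dv_mul, TV.dv_mul, hp, rename_X, TV.dv_X, TV.dv_X, ev_rename', TV.ev_X,
      TV.ev_X]

theorem ev_eq_eval' {K : Type} [Field K] {σ : Type} (c : σ → K) (p : MvPolynomial σ K) :
    TV.ev c p = eval c p := by
  induction p using MvPolynomial.induction_on with
  | C a => rw [TV.ev_C, eval_C]
  | add p q hp hq => rw [map_add, map_add, hp, hq]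
  | mul_X p i hp =>
    rw [TV.ev_mul, hp, TV.ev_X, map_mul, eval_X]
    rfl

theorem dv_eq_sum' {K : Type} [Field K] {σ : Type} [Fintype σ] (c v : σ → K)
    (p : MvPolynomial σ K) : TV.dv c v p = ∑ s, v s * eval c (pderiv s p) := by
  unfold TV.dv
  exact Finset.sum_congr rfl fun s _ => by rw [ev_eq_eval', smul_eq_mul]

/-- The generic point for an arbitrary polynomial relation `G (z, M) ∈ L`. -/
theorem gpoint {m n r N : ℕ} (U : Ultrafilter (Fin m → ℚ)) (hU : Gen U)
    (L : Submodule Qa ℂ) (G : MvPolynomial (Tau N n r) ℂ)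
    (x : ℕ → Fin m → ℚ) (M : (Fin m → ℚ) → Fin n × Fin (r + 1) → Qa)
    (z : (Fin m → ℚ) → Fin N → Qa)
    (h1 : ∀ᶠ a in (U : Filter (Fin m → ℚ)), ∀ i s,
      ∑ j : Fin (r + 1), M a (i, j) * ((Function.update x r a j s : ℚ) : Qa) = 0)
    (h2 : ∀ᶠ a in (U : Filter (Fin m → ℚ)), TV.ev (Sum.elim (z a) (M a)) G ∈ L) :
    ∀ᶠ a in (U : Filter (Fin m → ℚ)), ∀ ψ : Fin m → Qa,
      ∃ (T : Fin n × Fin (r + 1) → Qa) (ζ : Fin N → Qa),
        (∀ i s, ∑ j : Fin (r + 1), T (i, j) * ((Function.update x r a j s : ℚ) : Qa) =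
          -(ψ s * M a (i, Fin.last r))) ∧
        TV.dv (Sum.elim (z a) (M a)) (Sum.elim ζ T) G ∈ L := by
  classical
  obtain ⟨q, P', hP1, hP2⟩ := FC.forms L G
  -- the equations
  let P : (Fin n × Fin m) ⊕ Fin q → MvPolynomial (Fin m ⊕ (Fin N ⊕ (Fin n × Fin (r + 1)))) Qa :=
    Sum.elim (fun p => ∑ j : Fin r, C ((x j p.2 : ℚ) : Qa) *
        X (Sum.inr (Sum.inr (p.1, j.castSucc))) +
        X (Sum.inl p.2) * X (Sum.inr (Sum.inr (p.1, Fin.last r))))
      (fun j => rename Sum.inr (P' j))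
  have hup : ∀ (a : Fin m → ℚ) (c : Fin (r + 1) → Qa) (s : Fin m),
      ∑ j : Fin (r + 1), c j * ((Function.update x r a j s : ℚ) : Qa) =
        ∑ j : Fin r, ((x j s : ℚ) : Qa) * c j.castSucc + ((a s : ℚ) : Qa) * c (Fin.last r) := by
    intro a c s
    rw [Fin.sum_univ_castSucc]
    congr 1
    · refine Finset.sum_congr rfl fun j _ => ?_
      rw [Function.update_of_ne (by
        rw [Fin.val_castSucc]
        exact (Fin.is_lt j).ne), Fin.val_castSucc, mul_comm]
    · rw [Fin.val_last, Function.update_self, mul_comm]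
  have h3 : ∀ᶠ a in (U : Filter (Fin m → ℚ)), ∀ j,
      eval (Sum.elim (fun s => ((a s : ℚ) : Qa)) (Sum.elim (z a) (M a))) (P j) = 0 := by
    filter_upwards [h1, h2] with a ha1 ha2
    rintro (⟨i, s⟩ | j)
    · have h4 := ha1 i s
      rw [hup a (fun j => M a (i, j)) s] at h4
      rw [← h4]
      simp only [P, Sum.elim_inl, map_add, map_sum, map_mul, eval_C, eval_X, Sum.elim_inr]
    · have h5 := hP1 _ ha2 j
      rw [← h5]
      simp only [P, Sum.elim_inr]
      rw [← ev_eq_eval', ev_rename', ev_eq_eval']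
      rfl
  have h4 := FC.smooth U hU P (fun a => Sum.elim (z a) (M a)) h3
  filter_upwards [h4] with a ha ψ
  obtain ⟨η, hη⟩ := ha ψ
  have hη' : ∀ j, TV.dv (Sum.elim (fun s => ((a s : ℚ) : Qa)) (Sum.elim (z a) (M a)))
      (Sum.elim ψ η) (P j) = 0 := by
    intro j
    rw [dv_eq_sum', Fintype.sum_sum_type]
    exact hη j
  refine ⟨fun p => η (Sum.inr p), fun j => η (Sum.inl j), fun i s => ?_, ?_⟩
  · have h5 := hη' (Sum.inl (i, s))
    simp only [P, Sum.elim_inl] at h5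
    rw [TV.dv_add, TV.dv_sum, TV.dv_mul, TV.dv_X, TV.dv_X, TV.ev_X, TV.ev_X] at h5
    simp only [TV.dv_mul, TV.dv_C, TV.ev_C, TV.dv_X, Sum.elim_inl, Sum.elim_inr, zero_mul,
      zero_add, Algebra.algebraMap_self, RingHom.id_apply] at h5
    rw [hup a (fun j => η (Sum.inr (i, j))) s]
    linear_combination h5
  · have h5 : TV.dv (Sum.elim (z a) (M a)) η G ∈ L := by
      refine hP2 _ _ fun j => ?_
      have h6 := hη' (Sum.inr j)
      simp only [P, Sum.elim_inr] at h6
      rw [dv_rename', dv_eq_sum'] at h6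
      exact h6
    have h6 : η = Sum.elim (fun j => η (Sum.inl j)) (fun p => η (Sum.inr p)) := by
      funext t
      rcases t with t | t <;> rfl
    rw [h6] at h5
    exact h5

/-- The same for the `q`-th coefficient along the line, in explicit form. -/
theorem gline {m n r N : ℕ} (U : Ultrafilter (Fin m → ℚ)) (hU : Gen U)
    (L : Submodule Qa ℂ) (lam : Fin (r + 1) → ℂ) (P : MvPolynomial (Fin N ⊕ Fin n) ℂ) (q : ℕ)
    (x : ℕ → Fin m → ℚ) (M : (Fin m → ℚ) → Fin n × Fin (r + 1) → Qa)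
    (z : (Fin m → ℚ) → Fin N → Qa)
    (h1 : ∀ᶠ a in (U : Filter (Fin m → ℚ)), ∀ i s,
      ∑ j : Fin (r + 1), M a (i, j) * ((Function.update x r a j s : ℚ) : Qa) = 0)
    (h2 : ∀ᶠ a in (U : Filter (Fin m → ℚ)), (lin (fun l => (z a l : ℂ)) (TV.pt lam (M a))
      (fun i => (M a (i, Fin.last r) : ℂ)) P).coeff q ∈ L) :
    ∀ᶠ a in (U : Filter (Fin m → ℚ)), ∀ ψ : Fin m → Qa,
      ∃ (T : Fin n × Fin (r + 1) → Qa) (ζ : Fin N → Qa),
        (∀ i s, ∑ j : Fin (r + 1), T (i, j) * ((Function.update x r a j s : ℚ) : Qa) =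
          -(ψ s * M a (i, Fin.last r))) ∧
        (∑ i, (lin (fun l => (z a l : ℂ)) (TV.pt lam (M a))
          (fun i => (M a (i, Fin.last r) : ℂ)) (pderiv (Sum.inr i) P)).coeff q * TV.pt lam T i +
        (∑ l, ζ l • (lin (fun l => (z a l : ℂ)) (TV.pt lam (M a))
          (fun i => (M a (i, Fin.last r) : ℂ)) (pderiv (Sum.inl l) P)).coeff q +
        ∑ i, T (i, Fin.last r) • (Polynomial.X * lin (fun l => (z a l : ℂ)) (TV.pt lam (M a))
          (fun i => (M a (i, Fin.last r) : ℂ)) (pderiv (Sum.inr i) P)).coeff q)) ∈ L := by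
  have h3 := gpoint U hU L ((psi lam P).coeff q) x M z h1 (h2.mono fun a ha => by
    rw [← coeff_evp, evp_psi]
    exact ha)
  filter_upwards [h3] with a ha ψ
  obtain ⟨T, ζ, hT, hd⟩ := ha ψ
  refine ⟨T, ζ, hT, ?_⟩
  rw [← coeff_dvp, dvp_psi, Fintype.sum_sum_type, Polynomial.coeff_add,
    Polynomial.finsetSum_coeff, Polynomial.finsetSum_coeff] at hd
  have e1 : ∀ (c : Qa) (f : ℂ), (c : ℂ) * f = c • f := fun c f => rfl
  have e2 : ∀ l, (del lam ζ T (Sum.inl l) * lin (fun l => (z a l : ℂ)) (TV.pt lam (M a))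
      (fun i => (M a (i, Fin.last r) : ℂ)) (pderiv (Sum.inl l) P)).coeff q =
      ζ l • (lin (fun l => (z a l : ℂ)) (TV.pt lam (M a))
        (fun i => (M a (i, Fin.last r) : ℂ)) (pderiv (Sum.inl l) P)).coeff q := by
    intro l
    have : del lam ζ T (Sum.inl l) = Polynomial.C (ζ l : ℂ) := rfl
    rw [this, Polynomial.coeff_C_mul, e1]
  have e3 : ∀ i, (del lam ζ T (Sum.inr i) * lin (fun l => (z a l : ℂ)) (TV.pt lam (M a))
      (fun i => (M a (i, Fin.last r) : ℂ)) (pderiv (Sum.inr i) P)).coeff q =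
      (lin (fun l => (z a l : ℂ)) (TV.pt lam (M a))
        (fun i => (M a (i, Fin.last r) : ℂ)) (pderiv (Sum.inr i) P)).coeff q * TV.pt lam T i +
      T (i, Fin.last r) • (Polynomial.X * lin (fun l => (z a l : ℂ)) (TV.pt lam (M a))
        (fun i => (M a (i, Fin.last r) : ℂ)) (pderiv (Sum.inr i) P)).coeff q := by
    intro i
    have : del lam ζ T (Sum.inr i) = Polynomial.C (TV.pt lam T i) +
      Polynomial.C (T (i, Fin.last r) : ℂ) * Polynomial.X := rfl
    rw [this, add_mul, Polynomial.coeff_add, Polynomial.coeff_C_mul, mul_assoc,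
      Polynomial.coeff_C_mul, e1, mul_comm]
  rw [Finset.sum_congr rfl fun l _ => e2 l, Finset.sum_congr rfl fun i _ => e3 i,
    Finset.sum_add_distrib] at hd
  have e4 : ∀ u v w : ℂ, v + (u + w) = u + (v + w) := fun u v w => by ring
  rw [e4]
  exact hd

end MP60829e.FL
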