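import Pool.Agent.Lib.MP_60829e_nt.FC.Defs

/-! # The values of a polynomial along a line in the direction of the last column -/

open MvPolynomial Module

namespace MP60829e.FL

open MP60829e.ST (Qa Lsp Lt)
open MP60829e.FC (Xr Gen)

/-- `s ↦ P (z, w + s d)` as a polynomial. -/
noncomputable def lin {N n : ℕ} (z : Fin N → ℂ) (w d : Fin n → ℂ) :
    MvPolynomial (Fin N ⊕ Fin n) ℂ →ₐ[ℂ] Polynomial ℂ :=
  aeval (Sum.elim (fun l => Polynomial.C (z l))
    fun i => Polynomial.C (w i) + Polynomial.C (d i) * Polynomial.X)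

theorem lin_C {N n : ℕ} (z : Fin N → ℂ) (w d : Fin n → ℂ) (a : ℂ) :
    lin z w d (C a) = Polynomial.C a := by
  unfold lin
  rw [aeval_C]
  rfl

theorem lin_inl {N n : ℕ} (z : Fin N → ℂ) (w d : Fin n → ℂ) (l : Fin N) :
    lin z w d (X (Sum.inl l)) = Polynomial.C (z l) := by
  unfold lin
  rw [aeval_X]
  rfl

theorem lin_inr {N n : ℕ} (z : Fin N → ℂ) (w d : Fin n → ℂ) (i : Fin n) :
    lin z w d (X (Sum.inr i)) = Polynomial.C (w i) + Polynomial.C (d i) * Polynomial.X := by
  unfold lin
  rw [aeval_X]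
  rfl

theorem eval_lin {N n : ℕ} (z : Fin N → ℂ) (w d : Fin n → ℂ) (P : MvPolynomial (Fin N ⊕ Fin n) ℂ)
    (s : ℂ) : (lin z w d P).eval s = eval (Sum.elim z fun i => w i + s * d i) P := by
  induction P using MvPolynomial.induction_on with
  | C a => rw [lin_C, Polynomial.eval_C, eval_C]
  | add p q hp hq => rw [map_add, Polynomial.eval_add, hp, hq, map_add]
  | mul_X p i hp =>
    rw [map_mul, Polynomial.eval_mul, hp, map_mul, eval_X]
    congr 1
    rcases i with l | i
    · rw [lin_inl, Polynomial.eval_C, Sum.elim_inl]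
    · rw [lin_inr, Polynomial.eval_add, Polynomial.eval_mul, Polynomial.eval_C, Polynomial.eval_C,
        Polynomial.eval_X, Sum.elim_inr, mul_comm]

theorem coeff_zero_lin {N n : ℕ} (z : Fin N → ℂ) (w d : Fin n → ℂ)
    (P : MvPolynomial (Fin N ⊕ Fin n) ℂ) :
    (lin z w d P).coeff 0 = eval (Sum.elim z w) P := by
  rw [Polynomial.coeff_zero_eq_eval_zero, eval_lin]
  simp only [zero_mul, add_zero]

/-- The degree of `lin` is bounded. -/
theorem natDegree_lin {N n : ℕ} (z : Fin N → ℂ) (w d : Fin n → ℂ)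
    (P : MvPolynomial (Fin N ⊕ Fin n) ℂ) : (lin z w d P).natDegree ≤ P.totalDegree := by
  classical
  rw [show lin z w d P = lin z w d (∑ a ∈ P.support, monomial a (coeff a P)) by rw [← P.as_sum],
    map_sum]
  refine Polynomial.natDegree_sum_le_of_forall_le _ _ fun a ha => ?_
  have h1 : monomial a (coeff a P) = C (coeff a P) * ∏ i ∈ a.support, X i ^ a i := by
    rw [monomial_eq]
    rfl
  rw [h1, map_mul, map_prod, lin_C]
  refine (Polynomial.natDegree_C_mul_le _ _).trans ?_
  refine (Polynomial.natDegree_prod_le _ _).trans ?_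
  refine le_trans (Finset.sum_le_sum fun i _ => ?_) (le_totalDegree ha)
  rw [map_pow]
  refine Polynomial.natDegree_pow_le.trans ?_
  refine (Nat.mul_le_mul_left _ (?_ : _ ≤ 1)).trans (by rw [mul_one])
  rcases i with l | i
  · rw [lin_inl, Polynomial.natDegree_C]
    exact Nat.zero_le _
  · rw [lin_inr]
    refine (Polynomial.natDegree_add_le _ _).trans (max_le ?_ ?_)
    · rw [Polynomial.natDegree_C]
      exact Nat.zero_le _
    · exact (Polynomial.natDegree_C_mul_le _ _).trans Polynomial.natDegree_X_le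

/-- The chain rule along the line. -/
theorem derivative_lin {N n : ℕ} (z : Fin N → ℂ) (w d : Fin n → ℂ)
    (P : MvPolynomial (Fin N ⊕ Fin n) ℂ) :
    Polynomial.derivative (lin z w d P) =
      ∑ i, Polynomial.C (d i) * lin z w d (pderiv (Sum.inr i) P) := by
  classical
  induction P using MvPolynomial.induction_on with
  | C a =>
    rw [lin_C, Polynomial.derivative_C]
    symm
    refine Finset.sum_eq_zero fun i _ => ?_
    rw [pderiv_C, map_zero, mul_zero]
  | add p q hp hq =>
    rw [map_add, Polynomial.derivative_add, hp, hq, ← Finset.sum_add_distrib]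
    refine Finset.sum_congr rfl fun i _ => ?_
    rw [map_add, map_add, mul_add]
  | mul_X p j hp =>
    rw [map_mul, Polynomial.derivative_mul, hp]
    have h4 : ∀ i, Polynomial.C (d i) * lin z w d (pderiv (Sum.inr i) (p * X j)) =
        Polynomial.C (d i) * lin z w d (pderiv (Sum.inr i) p) * lin z w d (X j) +
          (if Sum.inr i = j then Polynomial.C (d i) * lin z w d p else 0) := by
      intro i
      rw [pderiv_mul, map_add, map_mul, map_mul]
      split_ifs with h
      · subst h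
        rw [pderiv_X_self, map_one]
        ring
      · rw [pderiv_X_of_ne (Ne.symm h), map_zero]
        ring
    rw [Finset.sum_congr rfl fun i _ => h4 i, Finset.sum_add_distrib, Finset.sum_mul]
    congr 1
    rcases j with l | j
    · rw [lin_inl, Polynomial.derivative_C, mul_zero]
      symm
      refine Finset.sum_eq_zero fun i _ => ?_
      rw [if_neg (by simp)]
    · rw [lin_inr, Polynomial.derivative_add, Polynomial.derivative_C, zero_add,
        Polynomial.derivative_C_mul, Polynomial.derivative_X, mul_one]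
      have h5 : ∀ i, (if (Sum.inr i : Fin N ⊕ Fin n) = Sum.inr j then
          Polynomial.C (d i) * lin z w d p else 0) =
          if i = j then Polynomial.C (d i) * lin z w d p else 0 := by
        intro i
        by_cases h : i = j
        · subst h
          rw [if_pos rfl, if_pos rfl]
        · rw [if_neg h, if_neg (fun h' => h (Sum.inr_injective h'))]
      rw [Finset.sum_congr rfl fun i _ => h5 i, Finset.sum_ite_eq', if_pos (Finset.mem_univ j),
        mul_comm]

/-! ### Coefficients depending polynomially on the parameters -/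

/-- The variables of the parameters and of the coefficients. -/
abbrev Tau (N n r : ℕ) := Fin N ⊕ (Fin n × Fin (r + 1))

/-- `s ↦ P (z, M lam + s d)`, `d` the last column of `M`, as a polynomial in `s` over the
polynomials in `z` and `M`. -/
noncomputable def psi {N n r : ℕ} (lam : Fin (r + 1) → ℂ) :
    MvPolynomial (Fin N ⊕ Fin n) ℂ →ₐ[ℂ] Polynomial (MvPolynomial (Tau N n r) ℂ) :=
  aeval (Sum.elim (fun l => Polynomial.C (X (Sum.inl l)))
    fun i => Polynomial.C (∑ j, C (lam j) * X (Sum.inr (i, j))) +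
      Polynomial.C (X (Sum.inr (i, Fin.last r))) * Polynomial.X)

theorem psi_C {N n r : ℕ} (lam : Fin (r + 1) → ℂ) (a : ℂ) :
    psi (N := N) (n := n) lam (C a) = Polynomial.C (C a) := by
  unfold psi
  rw [aeval_C]
  rfl

theorem psi_inl {N n r : ℕ} (lam : Fin (r + 1) → ℂ) (l : Fin N) :
    psi (n := n) lam (X (Sum.inl l)) = Polynomial.C (X (Sum.inl l)) := by
  unfold psi
  rw [aeval_X]
  rfl

theorem psi_inr {N n r : ℕ} (lam : Fin (r + 1) → ℂ) (i : Fin n) :
    psi (N := N) lam (X (Sum.inr i)) =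
      Polynomial.C (∑ j, C (lam j) * X (Sum.inr (i, j))) +
        Polynomial.C (X (Sum.inr (i, Fin.last r))) * Polynomial.X := by
  unfold psi
  rw [aeval_X]
  rfl

/-- The values of the coefficients. -/
noncomputable def evp {τ : Type} (c : τ → Qa) :
    Polynomial (MvPolynomial τ ℂ) →+* Polynomial ℂ :=
  Polynomial.mapRingHom (aeval (R := ℂ) fun s => algebraMap Qa ℂ (c s)).toRingHom

theorem coeff_evp {τ : Type} (c : τ → Qa) (G : Polynomial (MvPolynomial τ ℂ)) (j : ℕ) :
    (evp c G).coeff j = TV.ev c (G.coeff j) := by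
  unfold evp
  rw [Polynomial.coe_mapRingHom, Polynomial.coeff_map]
  rfl

theorem evp_C {τ : Type} (c : τ → Qa) (G : MvPolynomial τ ℂ) :
    evp c (Polynomial.C G) = Polynomial.C (TV.ev c G) := by
  unfold evp
  rw [Polynomial.coe_mapRingHom, Polynomial.map_C]
  rfl

theorem evp_X {τ : Type} (c : τ → Qa) :
    evp c (Polynomial.X : Polynomial (MvPolynomial τ ℂ)) = Polynomial.X := by
  unfold evp
  rw [Polynomial.coe_mapRingHom, Polynomial.map_X]

theorem ev_lam {N n r : ℕ} (lam : Fin (r + 1) → ℂ) (z : Fin N → Qa) (M : Fin n × Fin (r + 1) → Qa)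
    (i : Fin n) : TV.ev (Sum.elim z M)
      (∑ j, C (lam j) * X (Sum.inr (i, j)) : MvPolynomial (Tau N n r) ℂ) = TV.pt lam M i := by
  rw [map_sum]
  unfold TV.pt
  refine Finset.sum_congr rfl fun j _ => ?_
  rw [TV.ev_mul, TV.ev_C, TV.ev_X, Sum.elim_inr, Algebra.smul_def, mul_comm]

theorem evp_psi {N n r : ℕ} (lam : Fin (r + 1) → ℂ) (z : Fin N → Qa)
    (M : Fin n × Fin (r + 1) → Qa) (P : MvPolynomial (Fin N ⊕ Fin n) ℂ) :
    evp (Sum.elim z M) (psi lam P) =
      lin (fun l => (z l : ℂ)) (TV.pt lam M) (fun i => (M (i, Fin.last r) : ℂ)) P := by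
  induction P using MvPolynomial.induction_on with
  | C a => rw [psi_C, lin_C, evp_C, TV.ev_C]
  | add p q hp hq => rw [map_add, map_add, hp, hq, map_add]
  | mul_X p i hp =>
    rw [map_mul, map_mul, hp, map_mul]
    congr 1
    rcases i with l | i
    · rw [lin_inl, psi_inl, evp_C, TV.ev_X]
      rfl
    · rw [lin_inr, psi_inr, map_add, map_mul, evp_C, evp_C, evp_X, TV.ev_X, ev_lam]
      rfl

/-- The derivatives of the coefficients. -/
noncomputable def dvp {τ : Type} [Fintype τ] (c v : τ → Qa) (G : Polynomial (MvPolynomial τ ℂ)) :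
    Polynomial ℂ := ∑ j ∈ G.support, Polynomial.monomial j (TV.dv c v (G.coeff j))

theorem coeff_dvp {τ : Type} [Fintype τ] (c v : τ → Qa) (G : Polynomial (MvPolynomial τ ℂ))
    (j : ℕ) : (dvp c v G).coeff j = TV.dv c v (G.coeff j) := by
  classical
  unfold dvp
  rw [Polynomial.finsetSum_coeff]
  simp only [Polynomial.coeff_monomial]
  rw [Finset.sum_ite_eq']
  split_ifs with h
  · rfl
  · rw [Polynomial.notMem_support_iff.1 h, ← C_0, TV.dv_C]

theorem dvp_add {τ : Type} [Fintype τ] (c v : τ → Qa) (G H : Polynomial (MvPolynomial τ ℂ)) :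
    dvp c v (G + H) = dvp c v G + dvp c v H := by
  ext j
  rw [Polynomial.coeff_add, coeff_dvp, coeff_dvp, coeff_dvp, Polynomial.coeff_add, TV.dv_add]

theorem dvp_mul {τ : Type} [Fintype τ] (c v : τ → Qa) (G H : Polynomial (MvPolynomial τ ℂ)) :
    dvp c v (G * H) = dvp c v G * evp c H + evp c G * dvp c v H := by
  ext j
  rw [coeff_dvp, Polynomial.coeff_mul, TV.dv_sum, Polynomial.coeff_add, Polynomial.coeff_mul,
    Polynomial.coeff_mul, ← Finset.sum_add_distrib]
  refine Finset.sum_congr rfl fun p _ => ?_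
  rw [TV.dv_mul, coeff_dvp, coeff_dvp, coeff_evp, coeff_evp]

theorem dvp_C {τ : Type} [Fintype τ] (c v : τ → Qa) (G : MvPolynomial τ ℂ) :
    dvp c v (Polynomial.C G) = Polynomial.C (TV.dv c v G) := by
  ext j
  rw [coeff_dvp, Polynomial.coeff_C, Polynomial.coeff_C]
  split_ifs with h
  · rfl
  · rw [← C_0, TV.dv_C]

theorem dvp_X {τ : Type} [Fintype τ] (c v : τ → Qa) :
    dvp c v (Polynomial.X : Polynomial (MvPolynomial τ ℂ)) = 0 := by
  ext j
  rw [coeff_dvp, Polynomial.coeff_X, Polynomial.coeff_zero]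
  split_ifs with h
  · rw [← C_1, TV.dv_C]
  · rw [← C_0, TV.dv_C]

/-- The derivative of the point. -/
noncomputable def del {N n r : ℕ} (lam : Fin (r + 1) → ℂ) (ζ : Fin N → Qa)
    (T : Fin n × Fin (r + 1) → Qa) : Fin N ⊕ Fin n → Polynomial ℂ :=
  Sum.elim (fun l => Polynomial.C (ζ l : ℂ)) fun i => Polynomial.C (TV.pt lam T i) +
    Polynomial.C (T (i, Fin.last r) : ℂ) * Polynomial.X

theorem dv_lam {N n r : ℕ} (lam : Fin (r + 1) → ℂ) (z ζ : Fin N → Qa)
    (M T : Fin n × Fin (r + 1) → Qa)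
    (i : Fin n) : TV.dv (Sum.elim z M) (Sum.elim ζ T)
      (∑ j, C (lam j) * X (Sum.inr (i, j)) : MvPolynomial (Tau N n r) ℂ) = TV.pt lam T i := by
  rw [TV.dv_sum]
  unfold TV.pt
  refine Finset.sum_congr rfl fun j _ => ?_
  rw [TV.dv_mul, TV.dv_C, zero_mul, zero_add, TV.ev_C, TV.dv_X, Sum.elim_inr, Algebra.smul_def,
    mul_comm]

theorem dvp_psi_X {N n r : ℕ} (lam : Fin (r + 1) → ℂ) (z ζ : Fin N → Qa)
    (M T : Fin n × Fin (r + 1) → Qa) (i : Fin N ⊕ Fin n) :
    dvp (Sum.elim z M) (Sum.elim ζ T) (psi lam (X i)) = del lam ζ T i := by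
  rcases i with l | i
  · rw [psi_inl, dvp_C, TV.dv_X]
    rfl
  · rw [psi_inr, dvp_add, dvp_mul, dvp_C, dvp_C, dvp_X, evp_X, TV.dv_X, dv_lam, mul_zero, add_zero]
    rfl

/-- The chain rule for the derivatives of the coefficients. -/
theorem dvp_psi {N n r : ℕ} (lam : Fin (r + 1) → ℂ) (z ζ : Fin N → Qa)
    (M T : Fin n × Fin (r + 1) → Qa) (P : MvPolynomial (Fin N ⊕ Fin n) ℂ) :
    dvp (Sum.elim z M) (Sum.elim ζ T) (psi lam P) = ∑ s, del lam ζ T s *
      lin (fun l => (z l : ℂ)) (TV.pt lam M) (fun i => (M (i, Fin.last r) : ℂ)) (pderiv s P) := by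
  classical
  obtain ⟨Λ, hΛ⟩ : ∃ Λ : MvPolynomial (Fin N ⊕ Fin n) ℂ →ₐ[ℂ] Polynomial ℂ,
    Λ = lin (fun l => (z l : ℂ)) (TV.pt lam M) (fun i => (M (i, Fin.last r) : ℂ)) := ⟨_, rfl⟩
  have hev : ∀ p, evp (Sum.elim z M) (psi lam p) = Λ p := fun p => by rw [hΛ, evp_psi]
  rw [← hΛ]
  induction P using MvPolynomial.induction_on with
  | C a =>
    rw [psi_C, dvp_C, TV.dv_C, map_zero]
    symm
    refine Finset.sum_eq_zero fun i _ => ?_
    rw [pderiv_C, map_zero, mul_zero]
  | add p q hp hq =>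
    rw [map_add, dvp_add, hp, hq, ← Finset.sum_add_distrib]
    refine Finset.sum_congr rfl fun i _ => ?_
    rw [map_add, map_add, mul_add]
  | mul_X p j hp =>
    rw [map_mul, dvp_mul, hp, hev, hev, dvp_psi_X]
    have h4 : ∀ i, del lam ζ T i * Λ (pderiv i (p * X j)) =
        del lam ζ T i * Λ (pderiv i p) * Λ (X j) +
          (if i = j then Λ p * del lam ζ T i else 0) := by
      intro i
      rw [pderiv_mul, map_add, map_mul, map_mul]
      split_ifs with h
      · subst h
        rw [pderiv_X_self, map_one]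
        ring
      · rw [pderiv_X_of_ne (Ne.symm h), map_zero]
        ring
    rw [Finset.sum_congr rfl fun i _ => h4 i, Finset.sum_add_distrib, Finset.sum_mul,
      Finset.sum_ite_eq', if_pos (Finset.mem_univ j)]

end MP60829e.FL
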